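import Pool.Agent.H717.PM.Stm

/-!
# The certificates are polynomially bounded: `S_size`
-/

set_option autoImplicit false

namespace Pool.Agent.H169.PMSize

open Pool.Agent.NPC Pool.Agent.H717.PM

/-- the exponent -/
def T (L : ℕ) : ℕ := ((L ^ 2 + 2) ^ 2) ^ 2 + 2 * (L ^ 2 + 2) ^ 2 + 1

def B0 (L : ℕ) : ℕ := 4 * T L + 1
def B1 (L : ℕ) : ℕ := L * (B0 L + 1) + 1
def B2 (L : ℕ) : ℕ := L * (B1 L + 1) + 1

theorem bnd_lt {n k L : ℕ} (hn : n ≤ L) (hk : k ≤ L ^ 2 + 2) : bnd n k < 2 ^ T L := by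
  unfold bnd T
  obtain ⟨N, hN⟩ : ∃ N, N = k * (n * n + 2) := ⟨_, rfl⟩
  rw [← hN]
  have h1 : N ≤ (L ^ 2 + 2) ^ 2 := by
    rw [hN, pow_two (L ^ 2 + 2)]
    refine Nat.mul_le_mul hk ?_
    have := Nat.mul_le_mul hn hn
    nlinarith
  have h2 : N.factorial ≤ 2 ^ (N * N) := by
    refine (Nat.factorial_le_pow N).trans ?_
    rw [pow_mul]
    exact Nat.pow_le_pow_left (Nat.lt_two_pow_self).le N
  have h3 : 3 ^ N ≤ 2 ^ (2 * N) := by
    rw [pow_mul]
    exact Nat.pow_le_pow_left (by norm_num) N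
  calc N.factorial * 3 ^ N ≤ 2 ^ (N * N) * 2 ^ (2 * N) := Nat.mul_le_mul h2 h3
    _ = 2 ^ (N * N + 2 * N) := by rw [pow_add]
    _ < 2 ^ (((L ^ 2 + 2) ^ 2) ^ 2 + 2 * (L ^ 2 + 2) ^ 2 + 1) := by
      refine Nat.pow_lt_pow_right (by norm_num) ?_
      have h4 : N * N ≤ ((L ^ 2 + 2) ^ 2) ^ 2 := by
        rw [pow_two ((L ^ 2 + 2) ^ 2)]
        exact Nat.mul_le_mul h1 h1
      omega

theorem sz_nat_bound {n k L a : ℕ} (hn : n ≤ L) (hk : k ≤ L ^ 2 + 2) (ha : a ≤ bnd n k) :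
    sz a ≤ B0 L := by
  have h1 : a.size ≤ T L := Nat.size_le.2 (lt_of_le_of_lt ha (bnd_lt hn hk))
  have h2 := sz_nat_le a
  unfold B0
  omega

theorem sz_row {n k L : ℕ} (hn : n ≤ L) (hk : k ≤ L ^ 2 + 2) {l : List ℕ} (hl : l.length = n)
    (h : ∀ a ∈ l, a ≤ bnd n k) : sz l ≤ B1 L := by
  refine (sz_le_length_mul l (B0 L) fun a ha => sz_nat_bound hn hk (h a ha)).trans ?_
  unfold B1
  rw [hl]
  gcongr

theorem sz_mat {n k L : ℕ} (hn : n ≤ L) (hk : k ≤ L ^ 2 + 2) {M : List (List ℕ)}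
    (hM : M.length = n) (h : ∀ l ∈ M, l.length = n ∧ ∀ a ∈ l, a ≤ bnd n k) : sz M ≤ B2 L := by
  refine (sz_le_length_mul M (B1 L) fun l hl => sz_row hn hk (h l hl).1 (h l hl).2).trans ?_
  unfold B2
  rw [hM]
  gcongr

open Polynomial in
/-- the polynomials -/
theorem polys : ∃ P : Polynomial ℕ, ∀ L, P.eval L =
    ((L ^ 2 + 1) * (B2 L + 2 * B0 L + 2 + 1) + 1) +
      (B2 L + ((L ^ 2 + 1) * (2 * B0 L + 1 + 1) + 1) + 1) := by
  let t : Polynomial ℕ := ((X ^ 2 + C 2) ^ 2) ^ 2 + C 2 * (X ^ 2 + C 2) ^ 2 + C 1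
  let b0 : Polynomial ℕ := C 4 * t + C 1
  let b1 : Polynomial ℕ := X * (b0 + C 1) + C 1
  let b2 : Polynomial ℕ := X * (b1 + C 1) + C 1
  refine ⟨((X ^ 2 + C 1) * (b2 + C 2 * b0 + C 2 + C 1) + C 1) +
    (b2 + ((X ^ 2 + C 1) * (C 2 * b0 + C 1 + C 1) + C 1) + C 1), fun L => ?_⟩
  simp only [t, b0, b1, b2, eval_add, eval_mul, eval_pow, eval_X, eval_C, B2, B1, B0, T]

theorem t_size : S_size := by
  obtain ⟨P, hP⟩ := polys
  refine ⟨P, ?_, ?_⟩
  · intro I c hc h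
    have hn : I.1.length ≤ sz I := by
      have h1 := length_lt_sz I.1
      have h2 : sz I = sz I.1 + sz I.2 + 1 := sz_pair I.1 I.2
      omega
    have hk : I.1.length * I.1.length + 1 ≤ sz I ^ 2 + 1 := by
      rw [pow_two]
      exact Nat.succ_le_succ (Nat.mul_le_mul hn hn)
    rw [hP]
    have h1 := sz_le_length_mul c (B2 (sz I) + 2 * B0 (sz I) + 2) fun e he => by
      obtain ⟨q1, q2, q3, q4⟩ := h e he
      have s1 := sz_mat hn (by omega) q1 q2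
      have s2 := sz_nat_bound hn (by omega) q3
      have s3 := sz_nat_bound hn (by omega) q4
      have s4 : sz e = sz e.1 + (sz e.2.1 + sz e.2.2 + 1) + 1 := by
        rw [← sz_pair e.2.1 e.2.2]
        exact sz_pair e.1 e.2
      omega
    refine h1.trans (le_trans ?_ (Nat.le_add_right _ _))
    have := hc.trans hk
    gcongr
  · intro I c hc hl h1 h2
    have hn : I.1.length ≤ sz I := by
      have h1 := length_lt_sz I.1
      have h2 : sz I = sz I.1 + sz I.2 + 1 := sz_pair I.1 I.2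
      omega
    have hk : I.1.length * I.1.length + 1 ≤ sz I ^ 2 + 1 := by
      rw [pow_two]
      exact Nat.succ_le_succ (Nat.mul_le_mul hn hn)
    rw [hP]
    have s1 := sz_mat hn (by omega) hl h1
    have s2 := sz_le_length_mul c.2 (2 * B0 (sz I) + 1) fun e he => by
      obtain ⟨q3, q4⟩ := h2 e he
      have s2 := sz_nat_bound hn (by omega) q3
      have s3 := sz_nat_bound hn (by omega) q4
      have s4 : sz e = sz e.1 + sz e.2 + 1 := sz_pair e.1 e.2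
      omega
    have s3 : sz c = sz c.1 + sz c.2 + 1 := sz_pair c.1 c.2
    have s4 : c.2.length * (2 * B0 (sz I) + 1 + 1) + 1 ≤
        (sz I ^ 2 + 1) * (2 * B0 (sz I) + 1 + 1) + 1 := by
      have := hc.trans hk
      gcongr
    refine le_trans ?_ (Nat.le_add_left _ _)
    omega

end Pool.Agent.H169.PMSize
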